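import Pool.Agent.Lib.MP_a460e0_co.GK.All

namespace Pool.Agent.Results.MP_a460e0_co.PrimeLog

open Pool.Agent.Lib.MP_a460e0_co

/-- Over fields of odd prime order `q`, for every odd `d`, any `C q^((d-1)/2) (log q)^4` points on
a sphere of nonzero radius in `F_q^d` determine at least `c q` distinct distances, with absolute
constants `C` and `c`. -/
theorem result : ∃ C c : ℝ, 0 < C ∧ 0 < c ∧ ∀ d : ℕ, Odd d →
    ∀ (F : Type) [Field F] [Fintype F] [DecidableEq F], (Fintype.card F).Prime → ringChar F ≠ 2 →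
    ∀ j : F, j ≠ 0 → ∀ E : Finset (Fin d → F), (∀ x ∈ E, ∑ i, x i ^ 2 = j) →
      C * (Fintype.card F : ℝ) ^ (((d : ℝ) - 1) / 2) * Real.log (Fintype.card F) ^ 4 ≤
        (E.card : ℝ) →
      c * (Fintype.card F : ℝ) ≤
        (((E ×ˢ E).image (fun p => ∑ i, (p.1 i - p.2 i) ^ 2)).card : ℝ) :=
  GK.final_of GK.All.sphere

end Pool.Agent.Results.MP_a460e0_co.PrimeLog
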