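import Pool.Agent.Lib.MP_a460e0_co.SlD

namespace Pool.Agent.Results.MP_a460e0_co.Reduction

open Pool.Agent.Lib.MP_a460e0_co

/-- Every set of at least `C q^a` points on a sphere of nonzero radius in `F_q^d` determines at
least `c q` distances. -/
def Suffices (d : ℕ) (a C c : ℝ) : Prop :=
  ∀ (F : Type) [Field F] [Fintype F] [DecidableEq F], ringChar F ≠ 2 →
    ∀ j : F, j ≠ 0 → ∀ E : Finset (Fin d → F), (∀ x ∈ E, ∑ i, x i ^ 2 = j) →
      C * (Fintype.card F : ℝ) ^ a ≤ (E.card : ℝ) →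
      c * (Fintype.card F : ℝ) ≤
        (((E ×ˢ E).image (fun p => ∑ i, (p.1 i - p.2 i) ^ 2)).card : ℝ)

/-- The distance problem on spheres in odd dimension is equivalent to its three-dimensional
case. -/
theorem result (a : ℝ) (ha : 1 ≤ a) :
    (∃ C c : ℝ, 0 < C ∧ 0 < c ∧ Suffices 3 a C c) ↔
      ∃ C c : ℝ, 0 < C ∧ 0 < c ∧ ∀ d : ℕ, Odd d → Suffices d (a + ((d : ℝ) - 3) / 2) C c := by
  refine ⟨fun ⟨C, c, C0, c0, h⟩ => ?_, fun ⟨C, c, C0, c0, h⟩ =>
    ⟨C, c, C0, c0, by simpa using h 3 (by decide)⟩⟩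
  rcases le_total (4 / 3) a with h4 | h4
  · refine ⟨6, 1 / 800, by norm_num, by norm_num, fun d hd F _ _ _ hF j hj E hE hN => ?_⟩
    have q1 : (1 : ℝ) ≤ Fintype.card F := by exact_mod_cast Fintype.card_pos
    obtain ⟨x, hx, h⟩ := Sl.sixth d hd F hF j hj E hE (le_trans (by
      gcongr
      linarith) hN)
    refine (le_of_eq (by ring)).trans (h.trans (Nat.cast_le.2 (Finset.card_le_card fun t ht => ?_)))
    obtain ⟨y, hy, rfl⟩ := Finset.mem_image.1 ht
    exact Finset.mem_image.2 ⟨(x, y), Finset.mem_product.2 ⟨hx, hy⟩, rfl⟩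
  refine ⟨6 * C + 3, min c (100 + (6 * C) ^ 2)⁻¹, by positivity, by positivity,
    fun d hd F _ _ _ hF j hj E hE hN => ?_⟩
  have q1 : (1 : ℝ) ≤ Fintype.card F := by exact_mod_cast Fintype.card_pos
  have q0 : (0 : ℝ) < Fintype.card F := by linarith
  by_cases hq : Fintype.card F ≤ 100 + (6 * C) ^ 2
  · have hx : E.Nonempty := Finset.card_pos.1
      (Nat.cast_pos.1 (lt_of_lt_of_le (by positivity) hN))
    refine (mul_le_mul_of_nonneg_right (min_le_right _ _) q0.le).trans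
      (((inv_mul_le_one₀ (by positivity)).2 hq).trans ?_)
    exact_mod_cast Finset.card_pos.2 ((hx.product hx).image _)
  obtain ⟨k, rfl⟩ := hd
  rcases k with _ | k
  · have h1 := Sl.card_one E hE
    nlinarith [Real.one_le_rpow q1 (z := a + (((2 * 0 + 1 : ℕ) : ℝ) - 3) / 2) (by
      push_cast; linarith)]
  rw [not_le] at hq
  obtain ⟨l, j', E', φ, l0, j0, hc, m1, m2, m3⟩ := Sl.extract_std hF
    (by exact_mod_cast (show (100 : ℝ) ≤ Fintype.card F by nlinarith))
    (n := C * (Fintype.card F : ℝ) ^ a) (by positivity) (by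
      have h1 : 6 * C ≤ (Fintype.card F : ℝ) ^ ((1 : ℝ) / 2) := by
        rw [← Real.sqrt_eq_rpow]
        exact Real.le_sqrt_of_sq_le (by linarith)
      rw [← mul_assoc, ← Real.rpow_two]
      refine (mul_le_mul_of_nonneg_right h1 (by positivity)).trans ?_
      rw [← Real.rpow_add q0]
      exact Real.rpow_le_rpow_of_exponent_le q1 (by linarith))
    hj (k := k) E hE (le_trans (by
      rw [show a + (((2 * (k + 1) + 1 : ℕ) : ℝ) - 3) / 2 = k + a by push_cast; ring,
        Real.rpow_add q0, Real.rpow_natCast]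
      nlinarith [mul_pos (pow_pos q0 k) (Real.rpow_pos_of_pos q0 a)]) hN)
  refine (mul_le_mul_of_nonneg_right (min_le_left _ _) q0.le).trans
    ((h F hF j' j0 E' m2 hc).trans (Nat.cast_le.2 (Finset.card_le_card_of_injOn (l * ·)
      (fun t ht => ?_) fun a _ b _ hab => mul_left_cancel₀ l0 hab)))
  obtain ⟨p, hp, rfl⟩ := Finset.mem_image.1 ht
  obtain ⟨hx, hy⟩ := Finset.mem_product.1 hp
  exact Finset.mem_image.2 ⟨(φ p.1, φ p.2), Finset.mem_product.2 ⟨m1 _ hx, m1 _ hy⟩, m3 _ hx _ hy⟩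

end Pool.Agent.Results.MP_a460e0_co.Reduction
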