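import Pool.Agent.Lib.MP_a460e0_co.SlD

namespace Pool.Agent.Results.MP_a460e0_co.SixthBelowHalf

open Pool.Agent.Lib.MP_a460e0_co

/-- For every odd `d`, any `6 q^(d/2 - 1/6)` points on a sphere of nonzero radius in `F_q^d`
determine at least `q / 800` distinct distances, even from a single point of the set. -/
theorem result (d : ℕ) (hd : Odd d) (F : Type) [Field F] [Fintype F] [DecidableEq F]
    (hF : ringChar F ≠ 2) (j : F) (hj : j ≠ 0) (E : Finset (Fin d → F))
    (hE : ∀ x ∈ E, ∑ i, x i ^ 2 = j)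
    (hN : 6 * (Fintype.card F : ℝ) ^ ((d : ℝ) / 2 - 1 / 6) ≤ (E.card : ℝ)) :
    ∃ x ∈ E, (Fintype.card F : ℝ) / 800 ≤
      ((E.image fun y => ∑ i, (x i - y i) ^ 2).card : ℝ) :=
  Sl.sixth d hd F hF j hj E hE hN

end Pool.Agent.Results.MP_a460e0_co.SixthBelowHalf
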